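import Pool.Agent.H44D.Final
import Pool.Agent.H44D.B
import Pool.Agent.H44D.A
import Pool.Agent.H722R5.H44D_C1
import Pool.Agent.H886R3.TaskH44DC2
import Pool.Agent.H44D.C3
import Pool.Agent.H149.HQ.Top

/-!
# The homeomorphism group of the Hilbert cube is the union of a meagre set and a Haar null set
-/

set_option autoImplicit false

open MeasureTheory Topology

namespace Pool.Agent.Results.MP_08a145_lc.HilbertCube

/-- The Hilbert cube, with the product topology. -/
abbrev Q : Type := ℕ → unitInterval

/-- The group of the homeomorphisms of the Hilbert cube onto itself, under composition. -/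
abbrev HQ : Type := Q ≃ₜ Q

/-- A homeomorphism of the Hilbert cube as a continuous map. -/
def toMap (f : HQ) : C(Q, Q) := ⟨f, f.continuous⟩

/-- The topology of `HQ`: the one induced by the compact-open topology of `C(Q, Q)`, that is, the
topology of uniform convergence. -/
@[reducible] def topHQ : TopologicalSpace HQ := TopologicalSpace.induced toMap inferInstance

attribute [local instance] topHQ

/-- Haar null sets of `HQ` in the sense of Christensen: `N` lies in a Borel set all of whose
two-sided translates are null for one Borel probability measure. -/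
def HaarNull (N : Set HQ) : Prop :=
  ∃ B : Set HQ, N ⊆ B ∧ @MeasurableSet HQ (borel HQ) B ∧
    ∃ μ : @Measure HQ (borel HQ), @IsProbabilityMeasure HQ (borel HQ) μ ∧
      ∀ g h : HQ, μ ((fun x => g * x * h) '' B) = 0

/-! ### A flow -/

/-- The flow on the interval which multiplies the odds by `exp (-t)`. -/
noncomputable def ψ (t : ℝ) (x : unitInterval) : unitInterval :=
  ⟨(x : ℝ) / (x + Real.exp t * (1 - x)), by
    have h0 := x.2.1
    have h1 := x.2.2
    have he := Real.exp_pos t
    have hd : 0 ≤ Real.exp t * (1 - (x : ℝ)) := mul_nonneg he.le (by linarith)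
    exact ⟨by positivity, div_le_one_of_le₀ (by linarith) (by linarith)⟩⟩

theorem den_pos (t : ℝ) (x : unitInterval) : 0 < (x : ℝ) + Real.exp t * (1 - x) := by
  have h0 := x.2.1
  have h1 := x.2.2
  have he := Real.exp_pos t
  rcases eq_or_lt_of_le h0 with h | h
  · rw [← h]; simpa using he
  · have hd : 0 ≤ Real.exp t * (1 - (x : ℝ)) := mul_nonneg he.le (by linarith)
    linarith

theorem ψ_coe (t : ℝ) (x : unitInterval) :
    (ψ t x : ℝ) = (x : ℝ) / (x + Real.exp t * (1 - x)) := rfl

theorem ψ_add (s t : ℝ) (x : unitInterval) : ψ s (ψ t x) = ψ (s + t) x := by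
  apply Subtype.ext
  have h1 := den_pos t x
  have h2 := den_pos (s + t) x
  have h3 := den_pos s (ψ t x)
  rw [ψ_coe, ψ_coe, ψ_coe]
  rw [ψ_coe] at h3
  rw [Real.exp_add] at h2 ⊢
  rw [div_eq_div_iff h3.ne' h2.ne']
  field_simp
  ring

theorem ψ_zero (x : unitInterval) : ψ 0 x = x := by
  apply Subtype.ext
  rw [ψ_coe, Real.exp_zero]
  simp

theorem continuous_ψ : Continuous fun p : ℝ × unitInterval => ψ p.1 p.2 := by
  refine Continuous.subtype_mk ?_ _
  have h2 : Continuous fun p : ℝ × unitInterval => (p.2 : ℝ) :=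
    continuous_subtype_val.comp continuous_snd
  refine h2.div ?_ fun p => (den_pos p.1 p.2).ne'
  exact h2.add ((Real.continuous_exp.comp continuous_fst).mul (continuous_const.sub h2))

/-- The flow on the Hilbert cube, which moves the coordinate `0` only. -/
noncomputable def Ψ (t : ℝ) (q : Q) : Q := fun n => if n = 0 then ψ t (q n) else q n

theorem continuous_Ψ : Continuous fun p : ℝ × Q => Ψ p.1 p.2 := by
  refine continuous_pi fun n => ?_
  by_cases hn : n = 0
  · simp only [Ψ, hn, if_true]
    exact continuous_ψ.comp (continuous_fst.prodMk ((continuous_apply 0).comp continuous_snd))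
  · simp only [Ψ, hn, if_false]
    exact (continuous_apply n).comp continuous_snd

theorem Ψ_add (s t : ℝ) (q : Q) : Ψ s (Ψ t q) = Ψ (s + t) q := by
  funext n
  by_cases hn : n = 0
  · simp only [Ψ, hn, if_true]
    exact ψ_add s t (q 0)
  · simp only [Ψ, hn, if_false]

theorem Ψ_zero (q : Q) : Ψ 0 q = q := by
  funext n
  by_cases hn : n = 0
  · simp only [Ψ, hn, if_true]
    exact ψ_zero (q 0)
  · simp only [Ψ, hn, if_false]

/-- The flow as a one-parameter group of homeomorphisms. -/
noncomputable def P (t : ℝ) : HQ where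
  toFun := Ψ t
  invFun := Ψ (-t)
  left_inv q := by rw [Ψ_add, neg_add_cancel, Ψ_zero]
  right_inv q := by rw [Ψ_add, add_neg_cancel, Ψ_zero]
  continuous_toFun := continuous_Ψ.comp (continuous_const.prodMk continuous_id)
  continuous_invFun := continuous_Ψ.comp (continuous_const.prodMk continuous_id)

theorem continuous_P : Continuous P := by
  refine continuous_induced_rng.2 ?_
  exact ContinuousMap.continuous_of_continuous_uncurry _ continuous_Ψ

theorem P_zero : P 0 = 1 := by
  ext1 q
  exact Ψ_zero q

/-- The homeomorphism group `HQ` of the Hilbert cube is the union of two disjoint sets, one Haar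
null and the other meagre. -/
theorem result : ∃ A M : Set HQ, Disjoint A M ∧ A ∪ M = Set.univ ∧ HaarNull A ∧ IsMeagre M := by
  have hgrp : IsTopologicalGroup HQ := Pool.Agent.H149.HQ.homeo_isTopologicalGroup (X := Q)
  have hpol : PolishSpace HQ := Pool.Agent.H149.HQ.homeo_polish (X := Q)
  let mHQ : MeasurableSpace HQ := borel HQ
  have hbor : BorelSpace HQ := ⟨rfl⟩
  let q₀ : Q := fun _ => ⟨1 / 2, by norm_num, by norm_num⟩
  have hev : Continuous fun f : HQ => ((f q₀ 0 : unitInterval) : ℝ) := by
    have h1 : Continuous fun f : HQ => toMap f := continuous_induced_dom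
    have h2 : Continuous fun f : HQ => toMap f q₀ := (continuous_eval_const q₀).comp h1
    exact continuous_subtype_val.comp ((continuous_apply 0).comp h2)
  have hU : {f : HQ | 1 / 4 < ((f q₀ 0 : unitInterval) : ℝ)} ∈ 𝓝 (1 : HQ) := by
    refine (isOpen_lt continuous_const hev).mem_nhds ?_
    change (1 / 4 : ℝ) < 1 / 2
    norm_num
  have hlog : Real.exp (Real.log 3) = 3 := Real.exp_log (by norm_num)
  have hna := Pool.Agent.H149.HQ.not_nonarch P continuous_P P_zero _ hU (Real.log 3) (by
    intro h
    change (1 / 4 : ℝ) < (1 / 2 : ℝ) / ((1 / 2 : ℝ) + Real.exp (Real.log 3) * (1 - (1 / 2 : ℝ))) at h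
    rw [hlog] at h
    norm_num at h)
  obtain ⟨A, B, hAB, hA, C, hC, hBC, μ, hμ, hnull⟩ :=
    H44D.assembly H44D.taskA H44D.taskB H44D.taskC1 Pool.Agent.H886R3.DC2.taskC2 H44D.taskC3 HQ hna
  refine ⟨Aᶜ, A, disjoint_compl_left, Set.compl_union_self A, ?_, hA⟩
  refine ⟨C, ?_, hC, μ, hμ, hnull⟩
  intro x hx
  apply hBC
  have h : x ∈ A ∪ B := by rw [hAB]; trivial
  exact h.resolve_left hx

end Pool.Agent.Results.MP_08a145_lc.HilbertCube
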